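import Mathlib

set_option autoImplicit false
namespace Pool.Agent.H.MP_6bd959_co
open Set

theorem seq_inj {ι : Type} (A : ℕ → Set ι) (hA : ∀ n, (A n).Infinite) :
    ∃ f : ℕ → ι, Function.Injective f ∧ ∀ n, f n ∈ A n := by
  classical
  have h : ∀ n, ∀ s : Finset ι, ∃ a ∈ A n, a ∉ s := fun n s => (hA n).exists_notMem_finset s
  choose g hg hg' using h
  let L : ℕ → Finset ι := fun n => Nat.rec ∅ (fun k s => insert (g k s) s) n
  have hL : ∀ n, L (n + 1) = insert (g n (L n)) (L n) := fun n => rfl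
  have hm : ∀ m n, m < n → g m (L m) ∈ L n := by
    intro m n hmn
    induction n, hmn using Nat.le_induction with
    | base => rw [Nat.succ_eq_add_one, hL]; exact Finset.mem_insert_self _ _
    | succ k _ ih => rw [hL]; exact Finset.mem_insert_of_mem ih
  refine ⟨fun n => g n (L n), ?_, fun n => hg _ _⟩
  intro m n hmn
  by_contra hne
  rcases lt_or_gt_of_ne hne with h | h
  · exact hg' n (L n) (by have := hm m n h; simp only at hmn; rwa [hmn] at this)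
  · exact hg' m (L m) (by have := hm n m h; simp only at hmn; rwa [← hmn] at this)

theorem col_inf {ι X : Type} [Countable X] (A : X → Set ι) :
    ∃ B : Set ι, ∀ x, (A x).Infinite → (∃ i ∈ A x, i ∈ B) ∧ ∃ i ∈ A x, i ∉ B := by
  by_cases h : Nonempty {x // (A x).Infinite}
  · obtain ⟨e, he⟩ := exists_surjective_nat {x // (A x).Infinite}
    obtain ⟨f, hf, hf'⟩ := seq_inj (fun n => A (e (n / 2))) (fun n => (e (n / 2)).2)
    refine ⟨range (fun n => f (2 * n)), fun x hx => ?_⟩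
    obtain ⟨n, hn⟩ := he ⟨x, hx⟩
    have h1 := hf' (2 * n)
    have h2 := hf' (2 * n + 1)
    rw [show 2 * n / 2 = n by omega, hn] at h1
    rw [show (2 * n + 1) / 2 = n by omega, hn] at h2
    refine ⟨⟨_, h1, n, rfl⟩, _, h2, ?_⟩
    rintro ⟨k, hk⟩
    have := hf hk
    omega
  · exact ⟨∅, fun x hx => absurd ⟨⟨x, hx⟩⟩ h⟩

theorem col {ι X : Type} [Countable X] (E : X → Set ι) (h2 : ∀ x, (E x).Nontrivial)
    (hdis : ∀ x y, (E x).Finite → (E y).Finite → (E x ∩ E y).Nonempty → x = y)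
    (hfin : ∀ x, {y | (E y).Finite ∧ (E x ∩ E y).Nonempty}.Finite) :
    ∃ A : Set ι, ∀ x, (∃ i ∈ A, i ∈ E x) ∧ ∃ i ∉ A, i ∈ E x := by
  have h : ∀ x, ∃ a ∈ E x, ∃ b ∈ E x, a ≠ b := h2
  choose a ha b hb hab using h
  let R : Set ι := {i | ∃ y, (E y).Finite ∧ i ∈ E y}
  obtain ⟨B, hB⟩ := col_inf (fun x => E x \ R)
  refine ⟨{i | (∃ y, (E y).Finite ∧ i = a y) ∨ (i ∉ R ∧ i ∈ B)}, fun x => ?_⟩
  by_cases hx : (E x).Finite
  · refine ⟨⟨a x, Or.inl ⟨x, hx, rfl⟩, ha x⟩, b x, ?_, hb x⟩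
    rintro (⟨y, hy, e⟩ | ⟨h1, -⟩)
    · have := hdis x y hx hy ⟨b x, hb x, e ▸ ha y⟩
      subst this
      exact hab x e.symm
    · exact h1 ⟨x, hx, hb x⟩
  · have hi : (E x \ R).Infinite := by
      intro hf
      apply hx
      have h3 : (⋃ y ∈ {y | (E y).Finite ∧ (E x ∩ E y).Nonempty}, E y).Finite :=
        (hfin x).biUnion fun y hy => hy.1
      refine (hf.union h3).subset fun i hi => ?_
      by_cases hR : i ∈ R
      · obtain ⟨y, hy, hy'⟩ := hR
        exact Or.inr (mem_biUnion (show y ∈ {y | (E y).Finite ∧ (E x ∩ E y).Nonempty} from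
          ⟨hy, i, hi, hy'⟩) hy')
      · exact Or.inl ⟨hi, hR⟩
    obtain ⟨⟨i, hi1, hi2⟩, j, hj1, hj2⟩ := hB x hi
    refine ⟨⟨i, Or.inr ⟨hi1.2, hi2⟩, hi1.1⟩, j, ?_, hj1.1⟩
    rintro (⟨y, hy, e⟩ | ⟨-, h1⟩)
    · exact hj1.2 ⟨y, hy, e ▸ ha y⟩
    · exact hj2 h1

noncomputable def v (u : ℚ × ℚ) : ℝ := u.1 + u.2 * √2

theorem v_sub (x y : ℚ × ℚ) : v (x - y) = v x - v y := by
  simp only [v, Prod.fst_sub, Prod.snd_sub]; push_cast; ring

theorem v_inj : Function.Injective v := by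
  intro x y h
  have h0 : v (x - y) = 0 := by rw [v_sub, h, sub_self]
  rw [← sub_eq_zero]
  generalize x - y = z at h0
  obtain ⟨a, b⟩ := z
  simp only [v] at h0
  have hb : b = 0 := by
    by_contra hb
    have hb' : (b : ℝ) ≠ 0 := by exact_mod_cast hb
    refine irrational_sqrt_two ⟨-a / b, ?_⟩
    push_cast
    field_simp
    linarith
  subst hb
  have : (a : ℝ) = 0 := by simpa using h0
  have : a = 0 := by exact_mod_cast this
  subst this; rfl

def Q0 : Set ℚ := {q | ∃ (e : Finset ℕ) (i : ℕ), i ∈ e ∧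
  q = 1 / 2 ^ (Encodable.encode e + 1) + 1 / 3 ^ (i + 1)}

def P0 : Set (ℚ × ℚ) := {u | 0 < v u ∧ v u < 1 ∧ (0 < u.2 ∨ (u.2 = 0 ∧ u.1 ∈ Q0))}

theorem core {ι : Type} (τ : ι → ℚ × ℚ) (h : ∀ x, {i | x - τ i ∈ P0}.Nontrivial) :
    ∃ A : Set ι, ∀ x, (∃ i ∈ A, x - τ i ∈ P0) ∧ ∃ i ∉ A, x - τ i ∈ P0 := by
  have key : ∀ x y, {i | x - τ i ∈ P0}.Finite → {i | y - τ i ∈ P0}.Finite → v x < v y →
      v x + 1 ≤ v y := by
    intro x y hx hy hxy
    by_contra hc
    push Not at hc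
    obtain ⟨K, hK⟩ := ((hx.union hy).image (fun i => (τ i).2)).bddBelow
    obtain ⟨a, ha1, ha2⟩ := exists_rat_btwn
      (show v x - ((min K (min x.2 y.2) - 1 : ℚ) : ℝ) * √2 <
        v y - ((min K (min x.2 y.2) - 1 : ℚ) : ℝ) * √2 by linarith)
    obtain ⟨i, hi⟩ := (h (a, min K (min x.2 y.2) - 1)).nonempty
    obtain ⟨h1, h2, h3⟩ := hi
    rw [v_sub] at h1 h2
    have hv : v (a, min K (min x.2 y.2) - 1) = a + ((min K (min x.2 y.2) - 1 : ℚ) : ℝ) * √2 := rfl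
    have h4 : (τ i).2 ≤ min K (min x.2 y.2) - 1 := by
      simp only [Prod.snd_sub] at h3
      rcases h3 with h3 | h3
      · linarith
      · linarith [h3.1]
    have m1 := min_le_left K (min x.2 y.2)
    have m2 := (min_le_right K (min x.2 y.2)).trans (min_le_left x.2 y.2)
    have m3 := (min_le_right K (min x.2 y.2)).trans (min_le_right x.2 y.2)
    have h5 : i ∈ {i | x - τ i ∈ P0} ∪ {i | y - τ i ∈ P0} := by
      rcases lt_or_ge (v (τ i)) (v x) with h6 | h6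
      · exact Or.inl ⟨by rw [v_sub]; linarith, by rw [v_sub]; linarith,
          Or.inl (by simp only [Prod.snd_sub]; linarith)⟩
      · exact Or.inr ⟨by rw [v_sub]; linarith, by rw [v_sub]; linarith,
          Or.inl (by simp only [Prod.snd_sub]; linarith)⟩
    have := hK ⟨i, h5, rfl⟩
    simp only at this
    linarith
  have near : ∀ x y, ({i | x - τ i ∈ P0} ∩ {i | y - τ i ∈ P0}).Nonempty →
      v x < v y + 1 ∧ v y < v x + 1 := by
    rintro x y ⟨i, ⟨h1, h2, -⟩, h3, h4, -⟩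
    rw [v_sub] at h1 h2 h3 h4
    constructor <;> linarith
  refine col (fun x => {i | x - τ i ∈ P0}) h ?_ ?_
  · intro x y hx hy hxy
    obtain ⟨n1, n2⟩ := near x y hxy
    apply v_inj
    rcases lt_trichotomy (v x) (v y) with h | h | h
    · linarith [key x y hx hy h]
    · exact h
    · linarith [key y x hy hx h]
  · intro x
    refine Finite.of_finite_image (f := fun y => v y < v x) (toFinite _) ?_
    intro y hy z hz e
    obtain ⟨n1, n2⟩ := near x y hy.2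
    obtain ⟨n3, n4⟩ := near x z hz.2
    simp only [eq_iff_iff] at e
    apply v_inj
    rcases lt_trichotomy (v y) (v z) with h | h | h
    · have := key y z hy.1 hz.1 h
      by_cases h1 : v y < v x
      · linarith [e.mp h1]
      · linarith [not_lt.mp h1]
    · exact h
    · have := key z y hz.1 hy.1 h
      by_cases h1 : v z < v x
      · linarith [e.mpr h1]
      · linarith [not_lt.mp h1]

theorem two_three (a b c d : ℕ)
    (h : (1 : ℚ) / 2 ^ (a + 1) + 1 / 3 ^ (b + 1) = 1 / 2 ^ (c + 1) + 1 / 3 ^ (d + 1)) :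
    a = c ∧ b = d := by
  have lt : ∀ a b c d : ℕ,
      (1 : ℚ) / 2 ^ (a + 1) + 1 / 3 ^ (b + 1) = 1 / 2 ^ (c + 1) + 1 / 3 ^ (d + 1) → ¬ a < c := by
    intro a b c d h hac
    obtain ⟨k, rfl⟩ := Nat.exists_eq_add_of_lt hac
    have h1 : (3 : ℚ) ^ (b + d + 1) =
        2 * (2 ^ k * 3 ^ (b + d + 1) + 2 ^ (a + k + 1) * 3 ^ d - 2 ^ (a + k + 1) * 3 ^ b) := by
      have e1 : (1 : ℚ) / 2 ^ (a + 1) * (2 ^ (a + k + 2) * 3 ^ (b + d + 1)) =
        2 * 2 ^ k * 3 ^ (b + d + 1) := by field_simp; ring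
      have e2 : (1 : ℚ) / 3 ^ (b + 1) * (2 ^ (a + k + 2) * 3 ^ (b + d + 1)) =
        2 * 2 ^ (a + k + 1) * 3 ^ d := by field_simp; ring
      have e3 : (1 : ℚ) / 2 ^ (a + k + 1 + 1) * (2 ^ (a + k + 2) * 3 ^ (b + d + 1)) =
        3 ^ (b + d + 1) := by field_simp
      have e4 : (1 : ℚ) / 3 ^ (d + 1) * (2 ^ (a + k + 2) * 3 ^ (b + d + 1)) =
        2 * 2 ^ (a + k + 1) * 3 ^ b := by field_simp; ring
      linear_combination (-(2 ^ (a + k + 2) * 3 ^ (b + d + 1)) : ℚ) * h + e1 + e2 - e3 - e4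
    have h2 : (3 : ℤ) ^ (b + d + 1) =
        2 * (2 ^ k * 3 ^ (b + d + 1) + 2 ^ (a + k + 1) * 3 ^ d - 2 ^ (a + k + 1) * 3 ^ b) := by
      exact_mod_cast h1
    have h3 : Odd ((3 : ℤ) ^ (b + d + 1)) := Odd.pow (by decide)
    rw [h2] at h3
    exact (Int.not_odd_iff_even.mpr (even_two_mul _)) h3
  have hac : a = c := le_antisymm (not_lt.mp (lt c d a b h.symm)) (not_lt.mp (lt a b c d h))
  subst hac
  refine ⟨rfl, ?_⟩
  have h1 : (3 : ℚ) ^ (b + 1) = 3 ^ (d + 1) := by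
    have := add_left_cancel h
    rwa [one_div, one_div, inv_inj] at this
  have := pow_right_injective₀ (by norm_num) (by norm_num) h1
  omega

theorem mem_P0 (e : Finset ℕ) (i : ℕ) :
    ((1 / 2 ^ (Encodable.encode e + 1) + 1 / 3 ^ (i + 1), 0) : ℚ × ℚ) ∈ P0 ↔ i ∈ e := by
  constructor
  · rintro ⟨-, -, h | ⟨-, e', i', hi, h⟩⟩
    · exact absurd h (lt_irrefl _)
    · obtain ⟨h1, h2⟩ := two_three _ _ _ _ h
      rw [Encodable.encode_injective h1, h2]; exact hi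
  · intro hi
    refine ⟨?_, ?_, Or.inr ⟨rfl, e, i, hi, rfl⟩⟩
    · simp only [v]; push_cast; simp only [zero_mul, add_zero]; positivity
    · simp only [v]; push_cast; simp only [zero_mul, add_zero]
      have h1 : (1 : ℝ) / 2 ^ (Encodable.encode e + 1) ≤ 1 / 2 ^ 1 :=
        one_div_le_one_div_of_le (by norm_num) (pow_le_pow_right₀ (by norm_num) (by omega))
      have h2 : (1 : ℝ) / 3 ^ (i + 1) ≤ 1 / 3 ^ 1 :=
        one_div_le_one_div_of_le (by norm_num) (pow_le_pow_right₀ (by norm_num) (by omega))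
      linarith

abbrev Pl := EuclideanSpace ℝ (Fin 2)

noncomputable def g : ℚ × ℚ →+ Pl :=
  AddMonoidHom.mk' (fun u => EuclideanSpace.single 0 (v u)) (by
    intro x y
    have : v (x + y) = v x + v y := by
      simp only [v, Prod.fst_add, Prod.snd_add]; push_cast; ring
    rw [this]
    ext k
    fin_cases k <;> simp)

theorem g_inj : Function.Injective g := by
  intro x y h
  apply v_inj
  have := congrArg (fun z : Pl => z 0) h
  simpa [g] using this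

theorem plane {ι : Type} (c : ι → Pl) (h : ∀ x, {i | x - c i ∈ g '' P0}.Nontrivial) :
    ∃ A : Set ι, ∀ x, (∃ i ∈ A, x - c i ∈ g '' P0) ∧ ∃ i ∉ A, x - c i ∈ g '' P0 := by
  have hr : ∀ r : Pl, ∃ A : Set ι, ∀ u, (∃ i ∈ A, r + g u - c i ∈ g '' P0) ∧
      ∃ i ∉ A, r + g u - c i ∈ g '' P0 := by
    intro r
    have ht : ∀ i : {i // ∃ t, c i = r + g t}, ∃ t, c i = r + g t := fun i => i.2
    choose τ hτ using ht
    have hi : ∀ u (i : {i // ∃ t, c i = r + g t}), r + g u - c i ∈ g '' P0 ↔ u - τ i ∈ P0 := by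
      intro u i
      rw [hτ, add_sub_add_left_eq_sub, ← map_sub, g_inj.mem_set_image]
    have hm : ∀ u i, r + g u - c i ∈ g '' P0 → ∃ t, c i = r + g t := by
      rintro u i ⟨w, -, hw⟩
      exact ⟨u - w, by rw [map_sub, hw]; abel⟩
    obtain ⟨A, hA⟩ := core τ (by
      intro u
      obtain ⟨i, hi1, j, hj1, hij⟩ := h (r + g u)
      exact ⟨⟨i, hm u i hi1⟩, (hi u _).mp hi1, ⟨j, hm u j hj1⟩, (hi u _).mp hj1,
        fun e => hij (congrArg Subtype.val e)⟩)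
    refine ⟨Subtype.val '' A, fun u => ?_⟩
    obtain ⟨⟨i, hi1, hi2⟩, j, hj1, hj2⟩ := hA u
    exact ⟨⟨i, ⟨i, hi1, rfl⟩, (hi u i).mpr hi2⟩, j,
      fun hj => hj1 (Subtype.val_injective.mem_set_image.mp hj), (hi u j).mpr hj2⟩
  choose A hA using hr
  let ρ : Pl → Pl := fun x => (QuotientAddGroup.mk (s := g.range) x).out
  have hρ : ∀ x, ∃ u, x = ρ x + g u := by
    intro x
    obtain ⟨⟨_, u, rfl⟩, hu⟩ := QuotientAddGroup.mk_out_eq_add g.range x
    exact ⟨-u, by simp only [ρ]; rw [hu, map_neg]; simp⟩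
  have hρ' : ∀ x y, x - y ∈ g '' P0 → ρ y = ρ x := by
    rintro x y ⟨w, -, hw⟩
    simp only [ρ]
    congr 1
    rw [QuotientAddGroup.eq]
    exact ⟨w, by rw [hw]; abel⟩
  refine ⟨{i | i ∈ A (ρ (c i))}, fun x => ?_⟩
  obtain ⟨u, hu⟩ := hρ x
  obtain ⟨⟨i, hi1, hi2⟩, j, hj1, hj2⟩ := hA (ρ x) u
  rw [← hu] at hi2 hj2
  exact ⟨⟨i, by rw [mem_ofPred_eq, hρ' _ _ hi2]; exact hi1, hi2⟩, j,
    by rw [mem_ofPred_eq, hρ' _ _ hj2]; exact hj1, hj2⟩

end Pool.Agent.H.MP_6bd959_co
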